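import Pool.Agent.Helper33.QB.Defs

/-!
# Project QB, module A3: ranks of closed subsets
-/

set_option autoImplicit false

namespace Pool.Agent.Helper33.QB

open Set

variable {Ω : Type}

variable {Y : Set Ω} {R : Set (Set Ω)} {r : Ω → Ordinal.{0}}

private theorem a3_biUnion (h : GR Y R r) {T : Set Ω} (hT : T.Finite) (L : Ω → Set Ω)
    (hL : ∀ y ∈ T, L y ∈ R) : (⋃ y ∈ T, L y) ∈ R := by
  induction T, hT using Set.Finite.induction_on with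
  | empty => simpa using h.emp
  | insert _ _ ih =>
    rename_i a s _ _
    rw [Set.biUnion_insert]
    exact h.un _ (hL a (mem_insert _ _)) _ (ih fun y hy => hL y (mem_insert_of_mem _ hy))

private theorem a3_sUnion (h : GR Y R r) {F : Set (Set Ω)} (hF : F.Finite) (hFR : F ⊆ R) :
    ⋃₀ F ∈ R := by
  induction F, hF using Set.Finite.induction_on with
  | empty => simpa using h.emp
  | insert _ _ ih =>
    rename_i a s _ _
    rw [Set.sUnion_insert]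
    exact h.un _ (hFR (mem_insert _ _)) _ (ih fun y hy => hFR (mem_insert_of_mem _ hy))

private theorem a3_nbhd (h : GR Y R r) {K : Set Ω} (hK : K ∈ R) {x : Ω} (hx : x ∈ K) :
    ∃ K' ∈ R, K' ⊆ K ∧ x ∈ K' ∧ ∀ y ∈ K', y ≠ x → r y < r x := by
  classical
  let S : Set Ordinal.{0} := {ξ | ∃ K' ∈ R, K' ⊆ K ∧ x ∈ K' ∧ ∃ t ∈ K', (∀ y ∈ K', r y ≤ r t) ∧
    {y | y ∈ K' ∧ r y = r t}.Finite ∧ r t = ξ}
  have hS : S.Nonempty := by
    obtain ⟨t, ht, ht1, ht2⟩ := h.top K hK ⟨x, hx⟩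
    exact ⟨r t, K, hK, subset_rfl, hx, t, ht, ht1, ht2, rfl⟩
  obtain ⟨K', hK', hKK, hxK, t, ht, ht1, ht2, ht3⟩ := csInf_mem hS
  have hmin : ∀ K'' ∈ R, K'' ⊆ K → x ∈ K'' → ∀ t'' ∈ K'', (∀ y ∈ K'', r y ≤ r t'') →
      {y | y ∈ K'' ∧ r y = r t''}.Finite → sInf S ≤ r t'' := fun K'' h1 h2 h3 t'' h4 h5 h6 =>
    csInf_le' ⟨K'', h1, h2, h3, t'', h4, h5, h6, rfl⟩
  have hY : ∀ y ∈ K', y ∈ Y := fun y hy => h.sub K' hK' hy
  have hsep : ∀ y, y ∈ K' → y ≠ x → ∃ L ∈ R, y ∈ L ∧ x ∉ L := fun y hy hyx =>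
    h.sep y (hY y hy) x (hY x hxK) hyx
  choose! L hL using hsep
  let T : Set Ω := {y | y ∈ K' ∧ r y = r t} \ {x}
  have hT : T.Finite := ht2.subset sdiff_subset
  have hTL : ∀ y ∈ T, L y ∈ R := fun y hy => (hL y hy.1.1 hy.2).1
  have hU := a3_biUnion h hT L hTL
  refine ⟨K' \ ⋃ y ∈ T, L y, h.df _ hK' _ hU, sdiff_subset.trans hKK, ?_, ?_⟩
  · refine ⟨hxK, ?_⟩
    simp only [mem_iUnion, not_exists]
    intro y hy
    exact (hL y hy.1.1 hy.2).2.2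
  · have hxx : x ∈ K' \ ⋃ y ∈ T, L y := by
      refine ⟨hxK, ?_⟩
      simp only [mem_iUnion, not_exists]
      intro y hy
      exact (hL y hy.1.1 hy.2).2.2
    obtain ⟨t', ht', ht1', ht2'⟩ := h.top _ (h.df _ hK' _ hU) ⟨x, hxx⟩
    have h1 := hmin _ (h.df _ hK' _ hU) (sdiff_subset.trans hKK) hxx t' ht' ht1' ht2'
    have h2 : r t' = r t := le_antisymm (ht1 t' ht'.1) (ht3 ▸ h1)
    have h3 : t' = x := by
      by_contra hne
      apply ht'.2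
      have : t' ∈ T := ⟨⟨ht'.1, h2⟩, hne⟩
      exact mem_biUnion this (hL t' ht'.1 hne).2.1
    rw [h3] at h2
    intro y hy hyx
    rcases lt_or_eq_of_le (ht1 y hy.1) with h4 | h4
    · rw [h2]; exact h4
    · exfalso
      apply hy.2
      have : y ∈ T := ⟨⟨hy.1, h4⟩, hyx⟩
      exact mem_biUnion this (hL y hy.1 hyx).2.1

private theorem a3_compact (h : GR Y R r) {U : Set (Set Ω)} (hU : U ⊆ R) (ξ : Ordinal.{0}) :
    ∀ K ∈ R, (∀ y ∈ K, r y ≤ ξ) → K ⊆ ⋃₀ U → ∃ F ⊆ U, F.Finite ∧ K ⊆ ⋃₀ F := by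
  classical
  induction ξ using WellFoundedLT.induction with
  | _ ξ ih =>
    intro K hK hξ hc
    rcases K.eq_empty_or_nonempty with rfl | hne
    · exact ⟨∅, empty_subset _, finite_empty, empty_subset _⟩
    obtain ⟨t, ht, ht1, ht2⟩ := h.top K hK hne
    have hch : ∀ y, y ∈ K → ∃ u ∈ U, y ∈ u := fun y hy => hc hy
    choose! u hu using hch
    let T : Set Ω := {y | y ∈ K ∧ r y = r t}
    have hF0 : (u '' T).Finite := ht2.image u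
    have hF0U : u '' T ⊆ U := by
      rintro _ ⟨y, hy, rfl⟩
      exact (hu y hy.1).1
    have hK1 : K \ ⋃₀ (u '' T) ∈ R := h.df _ hK _ (a3_sUnion h hF0 (hF0U.trans hU))
    rcases (K \ ⋃₀ (u '' T)).eq_empty_or_nonempty with h1 | h1
    · exact ⟨_, hF0U, hF0, sdiff_eq_empty.1 h1⟩
    obtain ⟨t1, ht1', ht11, -⟩ := h.top _ hK1 h1
    have hlt : r t1 < r t := by
      rcases lt_or_eq_of_le (ht1 t1 ht1'.1) with h4 | h4
      · exact h4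
      · exfalso
        apply ht1'.2
        exact ⟨u t1, mem_image_of_mem u ⟨ht1'.1, h4⟩, (hu t1 ht1'.1).2⟩
    obtain ⟨F, hF, hFf, hFc⟩ := ih (r t1) (hlt.trans_le (hξ t ht)) _ hK1 ht11
      (sdiff_subset.trans hc)
    refine ⟨u '' T ∪ F, union_subset hF0U hF, hF0.union hFf, ?_⟩
    rw [sUnion_union]
    intro y hy
    by_cases hy1 : y ∈ ⋃₀ (u '' T)
    · exact Or.inl hy1
    · exact Or.inr (hFc ⟨hy, hy1⟩)

private theorem a3_compact_cl (h : GR Y R r) {E : Set Ω} (hE : Cl Y R E) {K : Set Ω} (hK : K ∈ R)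
    {U : Set (Set Ω)} (hU : U ⊆ R) (hc : K ∩ E ⊆ ⋃₀ U) :
    ∃ F ⊆ U, F.Finite ∧ K ∩ E ⊆ ⋃₀ F := by
  rcases K.eq_empty_or_nonempty with rfl | hne
  · exact ⟨∅, empty_subset _, finite_empty, by simp⟩
  obtain ⟨t, ht, ht1, ht2⟩ := h.top K hK hne
  have hU' : U ∪ {L | L ∈ R ∧ L ∩ E = ∅} ⊆ R := union_subset hU fun L hL => hL.1
  obtain ⟨F, hF, hFf, hFc⟩ := a3_compact h hU' (r t) K hK ht1 (by
    intro y hy
    by_cases hyE : y ∈ E
    · obtain ⟨u, hu, hyu⟩ := hc ⟨hy, hyE⟩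
      exact ⟨u, Or.inl hu, hyu⟩
    · obtain ⟨L, hL, hyL, hLE⟩ := hE.2 y (h.sub K hK hy) hyE
      exact ⟨L, Or.inr ⟨hL, hLE⟩, hyL⟩)
  refine ⟨F ∩ U, inter_subset_right, hFf.subset inter_subset_left, ?_⟩
  rintro y ⟨hy, hyE⟩
  obtain ⟨L, hL, hyL⟩ := hFc hy
  refine ⟨L, ⟨hL, ?_⟩, hyL⟩
  rcases hF hL with h1 | h1
  · exact h1
  · exfalso
    have : y ∈ L ∩ E := ⟨hyL, hyE⟩
    rw [h1.2] at this
    exact this

open Classical in
/-- The rank of a subset. -/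
private noncomputable def a3_rank (R : Set (Set Ω)) (r : Ω → Ordinal.{0}) (E : Set Ω) :
    Ω → Ordinal.{0} :=
  (InvImage.wf r (wellFounded_lt (α := Ordinal.{0}))).fix fun x ih =>
    if x ∈ E then sInf {ξ | ∃ K ∈ R, x ∈ K ∧ ∀ y ∈ K, y ∈ E → y ≠ x →
      ∃ hy : r y < r x, ih y hy < ξ} else 0

private theorem a3_rank_eq (R : Set (Set Ω)) (r : Ω → Ordinal.{0}) (E : Set Ω) {x : Ω}
    (hx : x ∈ E) : a3_rank R r E x = sInf {ξ | ∃ K ∈ R, x ∈ K ∧ ∀ y ∈ K, y ∈ E → y ≠ x →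
      r y < r x ∧ a3_rank R r E y < ξ} := by
  rw [a3_rank, WellFounded.fix_eq, if_pos hx]
  congr 1
  ext ξ
  simp only [mem_ofPred_eq, exists_prop]

private theorem a3_rank_out (R : Set (Set Ω)) (r : Ω → Ordinal.{0}) (E : Set Ω) {x : Ω}
    (hx : x ∉ E) : a3_rank R r E x = 0 := by
  rw [a3_rank, WellFounded.fix_eq, if_neg hx]

theorem exists_rank (h : GR Y R r) {E : Set Ω} (hE : Cl Y R E) :
    ∃ r', GR E (tr R E) r' ∧ (∀ x, r' x ≤ r x) ∧ ∀ x, x ∉ E → r' x = 0 := by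
  classical
  have hle : ∀ x, a3_rank R r E x ≤ r x := by
    intro x
    induction hx : r x using WellFoundedLT.induction generalizing x with
    | _ ξ ih =>
      by_cases hxE : x ∈ E
      · rw [a3_rank_eq R r E hxE]
        apply csInf_le'
        obtain ⟨K, hK, hxK⟩ := h.cov x (hE.1 hxE)
        obtain ⟨K', hK', -, hxK', hK2⟩ := a3_nbhd h hK hxK
        refine ⟨K', hK', hxK', fun y hy hyE hyx => ?_⟩
        have h1 := hK2 y hy hyx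
        refine ⟨h1, ?_⟩
        have h2 := ih (r y) (hx ▸ h1) y rfl
        rw [← hx]
        exact h2.trans_lt h1
      · rw [a3_rank_out R r E hxE]
        exact zero_le
  have hnb : ∀ x ∈ E, ∃ K ∈ R, x ∈ K ∧ ∀ y ∈ K, y ∈ E → y ≠ x →
      r y < r x ∧ a3_rank R r E y < a3_rank R r E x := by
    intro x hxE
    have hne : {ξ | ∃ K ∈ R, x ∈ K ∧ ∀ y ∈ K, y ∈ E → y ≠ x →
      r y < r x ∧ a3_rank R r E y < ξ}.Nonempty := by
      obtain ⟨K, hK, hxK⟩ := h.cov x (hE.1 hxE)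
      obtain ⟨K', hK', -, hxK', hK2⟩ := a3_nbhd h hK hxK
      refine ⟨r x, K', hK', hxK', fun y hy hyE hyx => ?_⟩
      have h1 := hK2 y hy hyx
      exact ⟨h1, (hle y).trans_lt h1⟩
    have := csInf_mem hne
    rw [← a3_rank_eq R r E hxE] at this
    exact this
  refine ⟨a3_rank R r E, ⟨?_, ?_, ?_, ?_, ?_, ?_, ?_, ?_⟩, hle, fun x hx => a3_rank_out R r E hx⟩
  · rintro _ ⟨K, hK, rfl⟩
    exact inter_subset_right
  · exact ⟨∅, h.emp, by simp⟩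
  · rintro _ ⟨K, hK, rfl⟩ _ ⟨K', hK', rfl⟩
    exact ⟨K ∪ K', h.un _ hK _ hK', (union_inter_distrib_right _ _ _).symm⟩
  · rintro _ ⟨K, hK, rfl⟩ _ ⟨K', hK', rfl⟩
    refine ⟨K \ K', h.df _ hK _ hK', ?_⟩
    ext y
    simp only [mem_sdiff, mem_inter_iff]
    tauto
  · intro x hx
    obtain ⟨K, hK, hxK⟩ := h.cov x (hE.1 hx)
    exact ⟨_, ⟨K, hK, rfl⟩, hxK, hx⟩
  · intro x hx y hy hxy
    obtain ⟨K, hK, hxK, hyK⟩ := h.sep x (hE.1 hx) y (hE.1 hy) hxy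
    exact ⟨_, ⟨K, hK, rfl⟩, ⟨hxK, hx⟩, fun h1 => hyK h1.1⟩
  · rintro _ ⟨K, hK, rfl⟩ hne
    choose! N hN using hnb
    have hUR : N '' (K ∩ E) ⊆ R := by
      rintro _ ⟨y, hy, rfl⟩
      exact (hN y hy.2).1
    obtain ⟨F, hF, hFf, hFc⟩ := a3_compact_cl h hE hK hUR (fun y hy =>
      ⟨N y, mem_image_of_mem N hy, (hN y hy.2).2.1⟩)
    haveI : Nonempty Ω := ⟨hne.some⟩
    choose! g hg using (show ∀ L, L ∈ F → ∃ y ∈ K ∩ E, N y = L from fun L hL => hF hL)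
    have hXf : (g '' F).Finite := hFf.image g
    have hcov : ∀ y ∈ K ∩ E, ∃ x ∈ g '' F, y ∈ N x := by
      intro y hy
      obtain ⟨L, hL, hyL⟩ := hFc hy
      refine ⟨g L, mem_image_of_mem g hL, ?_⟩
      rw [(hg L hL).2]
      exact hyL
    have hXs : g '' F ⊆ K ∩ E := by
      rintro _ ⟨L, hL, rfl⟩
      exact (hg L hL).1
    have hXne : (g '' F).Nonempty := by
      obtain ⟨z, hz⟩ := hne
      obtain ⟨x, hx, -⟩ := hcov z hz
      exact ⟨x, hx⟩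
    obtain ⟨x0, hx0, hmax⟩ := hXf.exists_maximalFor (a3_rank R r E) _ hXne
    have hm : ∀ x ∈ g '' F, a3_rank R r E x ≤ a3_rank R r E x0 := by
      intro x hx
      rcases le_total (a3_rank R r E x) (a3_rank R r E x0) with h1 | h1
      · exact h1
      · exact hmax hx h1
    have hle2 : ∀ y ∈ K ∩ E, ∀ x ∈ g '' F, y ∈ N x → y ≠ x →
        a3_rank R r E y < a3_rank R r E x := fun y hy x hx hyx hne' =>
      ((hN x (hXs hx).2).2.2 y hyx hy.2 hne').2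
    refine ⟨x0, hXs hx0, fun y hy => ?_, hXf.subset ?_⟩
    · obtain ⟨x, hx, hyx⟩ := hcov y hy
      by_cases h1 : y = x
      · rw [h1]; exact hm x hx
      · exact (hle2 y hy x hx hyx h1).le.trans (hm x hx)
    · rintro y ⟨hy, hyr⟩
      obtain ⟨x, hx, hyx⟩ := hcov y hy
      by_cases h1 : y = x
      · rw [h1]; exact hx
      · exfalso
        have := (hle2 y hy x hx hyx h1).trans_le (hm x hx)
        rw [hyr] at this
        exact lt_irrefl _ this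
  · rintro _ ⟨K, hK, rfl⟩ x ⟨hxK, hxE⟩ β hβ
    obtain ⟨K', hK', hKK, hxK', hK2⟩ := a3_nbhd h hK hxK
    by_contra hcon
    push Not at hcon
    have : a3_rank R r E x ≤ β := by
      rw [a3_rank_eq R r E hxE]
      apply csInf_le'
      refine ⟨K', hK', hxK', fun y hy hyE hyx => ⟨hK2 y hy hyx, ?_⟩⟩
      exact hcon y ⟨hKK hy, hyE⟩ hyx
    exact absurd hβ (not_lt.2 this)

theorem rank_mono (h : GR Y R r) {E E' : Set Ω} (hE : Cl Y R E) (hE' : Cl Y R E') (hEE : E ⊆ E')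
    {r1 r2 : Ω → Ordinal.{0}} (h1 : GR E (tr R E) r1) (h2 : GR E' (tr R E') r2) :
    ∀ x ∈ E, r1 x ≤ r2 x := by
  intro x
  induction hx : r2 x using WellFoundedLT.induction generalizing x with
  | _ ξ ih =>
    intro hxE
    by_contra hlt
    rw [not_le] at hlt
    obtain ⟨O, hO, hxO⟩ := h2.cov x (hEE hxE)
    obtain ⟨O', hO', -, hxO', hN⟩ := a3_nbhd h2 hO hxO
    obtain ⟨K, hK, rfl⟩ := hO'
    obtain ⟨y, hy, hyx, hyr⟩ := h1.ex (K ∩ E) ⟨K, hK, rfl⟩ x ⟨hxO'.1, hxE⟩ ξ hlt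
    have h3 := hN y ⟨hy.1, hEE hy.2⟩ hyx
    rw [hx] at h3
    have h4 := ih (r2 y) h3 y rfl hy.2
    exact absurd (h4.trans_lt h3) (not_lt.2 hyr)

/-- The set of the points of rank at least `ρ` and its rank. -/
theorem rank_deriv (h : GR Y R r) (ρ : Ordinal.{0}) :
    Cl Y R {x | x ∈ Y ∧ ρ ≤ r x} ∧
      GR {x | x ∈ Y ∧ ρ ≤ r x} (tr R {x | x ∈ Y ∧ ρ ≤ r x}) (fun x => r x - ρ) := by
  refine ⟨⟨fun x hx => hx.1, ?_⟩, ⟨?_, ?_, ?_, ?_, ?_, ?_, ?_, ?_⟩⟩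
  · intro x hx hxn
    have hlt : r x < ρ := not_le.1 fun h1 => hxn ⟨hx, h1⟩
    obtain ⟨K, hK, hxK⟩ := h.cov x hx
    obtain ⟨K', hK', -, hxK', hN⟩ := a3_nbhd h hK hxK
    refine ⟨K', hK', hxK', ?_⟩
    rw [eq_empty_iff_forall_notMem]
    rintro y ⟨hy, -, hyρ⟩
    by_cases hyx : y = x
    · rw [hyx] at hyρ
      exact absurd hlt (not_lt.2 hyρ)
    · exact absurd ((hN y hy hyx).trans hlt) (not_lt.2 hyρ)
  · rintro _ ⟨K, hK, rfl⟩
    exact inter_subset_right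
  · exact ⟨∅, h.emp, by simp⟩
  · rintro _ ⟨K, hK, rfl⟩ _ ⟨K', hK', rfl⟩
    exact ⟨K ∪ K', h.un _ hK _ hK', (union_inter_distrib_right _ _ _).symm⟩
  · rintro _ ⟨K, hK, rfl⟩ _ ⟨K', hK', rfl⟩
    refine ⟨K \ K', h.df _ hK _ hK', ?_⟩
    ext y
    simp only [mem_sdiff, mem_inter_iff]
    tauto
  · intro x hx
    obtain ⟨K, hK, hxK⟩ := h.cov x hx.1
    exact ⟨_, ⟨K, hK, rfl⟩, hxK, hx⟩
  · intro x hx y hy hxy
    obtain ⟨K, hK, hxK, hyK⟩ := h.sep x hx.1 y hy.1 hxy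
    exact ⟨_, ⟨K, hK, rfl⟩, ⟨hxK, hx⟩, fun h1 => hyK h1.1⟩
  · rintro _ ⟨K, hK, rfl⟩ ⟨z, hzK, hzY, hz⟩
    obtain ⟨t, ht, ht1, ht2⟩ := h.top K hK ⟨z, hzK⟩
    have hρt : ρ ≤ r t := hz.trans (ht1 z hzK)
    refine ⟨t, ⟨ht, h.sub K hK ht, hρt⟩, fun y hy => ?_, ?_⟩
    · exact Ordinal.sub_le.2 (by
        rw [Ordinal.add_sub_cancel_of_le hρt]; exact ht1 y hy.1)
    refine ht2.subset ?_
    rintro y ⟨⟨hyK, hyY, hyρ⟩, hyr⟩
    refine ⟨hyK, ?_⟩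
    have h1 : ρ + (r y - ρ) = ρ + (r t - ρ) := by
      rw [show r y - ρ = r t - ρ from hyr]
    rwa [Ordinal.add_sub_cancel_of_le hyρ, Ordinal.add_sub_cancel_of_le hρt] at h1
  · rintro _ ⟨K, hK, rfl⟩ x ⟨hxK, hxY, hxρ⟩ β hβ
    have h1 : ρ + β < r x := by
      rw [← Ordinal.add_sub_cancel_of_le hxρ]
      exact add_lt_add_of_le_of_lt le_rfl hβ
    obtain ⟨y, hy, hyx, hyr⟩ := h.ex K hK x hxK _ h1
    refine ⟨y, ⟨hy, h.sub K hK hy, le_self_add.trans hyr⟩, hyx, ?_⟩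
    exact Ordinal.le_sub_of_add_le hyr

/-- Restriction of the rank of a closed set to a clopen part of the space. -/
theorem rank_clopen (h : GR Y R r) {A : Set Ω} (hAY : A ⊆ Y) (hA : ∀ K ∈ R, K ∩ A ∈ R)
    {E : Set Ω} {r' : Ω → Ordinal.{0}} (hE : GR E (tr R E) r') :
    GR (E ∩ A) (tr R (E ∩ A)) r' := by
  have key : ∀ O ∈ tr R (E ∩ A), O ∈ tr R E := by
    rintro _ ⟨K, hK, rfl⟩
    refine ⟨K ∩ A, hA K hK, ?_⟩
    ext y
    simp only [mem_inter_iff]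
    tauto
  refine ⟨?_, ?_, ?_, ?_, ?_, ?_, ?_, ?_⟩
  · rintro _ ⟨K, hK, rfl⟩
    exact inter_subset_right
  · exact ⟨∅, h.emp, by simp⟩
  · rintro _ ⟨K, hK, rfl⟩ _ ⟨K', hK', rfl⟩
    exact ⟨K ∪ K', h.un _ hK _ hK', (union_inter_distrib_right _ _ _).symm⟩
  · rintro _ ⟨K, hK, rfl⟩ _ ⟨K', hK', rfl⟩
    refine ⟨K \ K', h.df _ hK _ hK', ?_⟩
    ext y
    simp only [mem_sdiff, mem_inter_iff]
    tauto
  · intro x hx
    obtain ⟨O, ⟨K, hK, rfl⟩, hxK⟩ := hE.cov x hx.1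
    exact ⟨_, ⟨K, hK, rfl⟩, hxK.1, hx⟩
  · intro x hx y hy hxy
    obtain ⟨O, ⟨K, hK, rfl⟩, hxK, hyK⟩ := hE.sep x hx.1 y hy.1 hxy
    exact ⟨_, ⟨K, hK, rfl⟩, ⟨hxK.1, hx⟩, fun h1 => hyK ⟨h1.1, hy.1⟩⟩
  · intro K hK hne
    exact hE.top K (key K hK) hne
  · intro K hK
    exact hE.ex K (key K hK)

end Pool.Agent.Helper33.QB
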