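import Pool.Agent.Helper45.QB.Ring1
import Pool.Agent.Helper33.QB.Sent
import Pool.Agent.Helper93.QuotBAMain

/-!
# Project QB, module Z1: the ZFC part

From the combinatorial sentence to the Boolean algebra of the clopen sets of the one-point
compactification.
-/

set_option autoImplicit false

namespace Pool.Agent.Helper33.QB

open Set Cardinal Ordinal TopologicalSpace Topology Pool.Agent.Helper93.QuotBA

/-! ### Countability -/

private theorem z1_fin_infinite {O : Type} {lt : O → O → Prop} (hw : IsWellOrder O lt)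
    (hO : Infinite O) : {y | {z | lt z y}.Finite}.Infinite := by
  intro hf
  have hne : ({y | {z | lt z y}.Finite}ᶜ : Set O).Nonempty := by
    by_contra h
    rw [not_nonempty_iff_eq_empty, compl_empty_iff] at h
    rw [h] at hf
    exact infinite_univ hf
  have hmin := hw.wf.has_min _ hne
  obtain ⟨y, hy, hy2⟩ := hmin
  apply hy
  refine hf.subset fun z hz => ?_
  by_contra hz2
  exact hy2 z hz2 hz

/-- `CtbIn` for all relations is countability. -/
theorem ctbIn_univ {O : Type} {lt : O → O → Prop} {a : O} (hS : Sent lt a univ univ univ)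
    (E : Set O) : CtbIn lt univ E ↔ E.Countable := by
  have hw := hS.wo
  have hO : Infinite O := by
    by_contra h
    rw [not_infinite_iff_finite] at h
    exact hS.unc ⟨fun x y => y = x, mem_univ _, fun x _ => ⟨x, toFinite _, rfl⟩,
      fun x _ x' _ y h1 h2 => h1.symm.trans h2⟩
  constructor
  · rintro ⟨F, -, h1, h2⟩
    choose! g hg using h1
    have hlt : ∀ y y' : O, {z | lt z y'}.Finite → lt y y' →
        {z | lt z y}.ncard < {z | lt z y'}.ncard := by
      intro y y' hf h
      apply ncard_lt_ncard _ hf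
      refine ⟨fun z hz => trans_of lt hz h, fun hsub => ?_⟩
      exact irrefl_of lt y (hsub h)
    have h3 : {y | {z | lt z y}.Finite}.Countable := by
      have hinj : InjOn (fun y => {z | lt z y}.ncard) {y | {z | lt z y}.Finite} := by
        intro y hy y' hy' he
        rcases trichotomous_of lt y y' with h | h | h
        · exact absurd he (hlt y y' hy' h).ne
        · exact h
        · exact absurd he (hlt y' y hy h).ne'
      exact countable_iff_exists_injOn.2 ⟨_, hinj⟩
    refine (MapsTo.countable_of_injOn (f := g) (t := {y | {z | lt z y}.Finite})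
      (fun x hx => (hg x hx).1) ?_ h3)
    intro x hx x' hx' he
    exact h2 x hx x' hx' (g x) (hg x hx).2 (by rw [he]; exact (hg x' hx').2)
  · intro hE
    have hinf := z1_fin_infinite hw hO
    let e := hinf.natEmbedding
    obtain ⟨f, hf⟩ := countable_iff_exists_injOn.1 hE
    refine ⟨fun x y => y = (e (f x)).1, mem_univ _, fun x _ => ⟨_, (e (f x)).2, rfl⟩, ?_⟩
    intro x hx x' hx' y h1 h2
    apply hf hx hx'
    apply e.injective
    apply Subtype.ext
    rw [← h1, ← h2]

private theorem z1_mk_le {O : Type} {lt : O → O → Prop} (hw : IsWellOrder O lt)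
    (hseg : ∀ x, {y | lt y x}.Countable) : #O ≤ ℵ₁ := by
  have h1 : type lt ≤ ω₁ := by
    by_contra hlt
    rw [not_le] at hlt
    obtain ⟨x, hx⟩ := typein_surj lt hlt
    have h2 : #{y | lt y x} = ℵ₁ := by
      have h3 : (typein lt x).card = #{y | lt y x} := rfl
      rw [← h3, hx]
      simp
    have h4 := (hseg x).le_aleph0
    rw [h2] at h4
    exact absurd h4 (not_le.2 aleph0_lt_aleph_one)
  have h2 := Ordinal.card_le_card h1
  rw [card_type] at h2
  simpa using h2

/-! ### Countably many clopen sets -/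

private theorem z1_countable_clopens {F : Type*} [TopologicalSpace F] [CompactSpace F] [T2Space F]
    [TotallyDisconnectedSpace F] [Countable F] : Countable (Clopens F) := by
  classical
  have hsep : ∀ p : F × F, ∃ c : Clopens F, p.1 ≠ p.2 → p.1 ∈ c ∧ p.2 ∉ c := by
    intro p
    by_cases hp : p.1 = p.2
    · exact ⟨⊥, fun h => absurd hp h⟩
    · obtain ⟨V, hV, hxV, hVy⟩ := compact_exists_isClopen_in_isOpen
        (isOpen_compl_singleton (x := p.2)) (show p.1 ∈ ({p.2} : Set F)ᶜ from hp)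
      exact ⟨⟨V, hV⟩, fun _ => ⟨hxV, fun h => hVy h rfl⟩⟩
  choose c hc using hsep
  let Φ : Finset (Finset (F × F)) → Clopens F := fun S => S.sup fun T => T.inf c
  have hsurj : Function.Surjective Φ := by
    intro b
    have h1 : ∀ x : (b : Set F), ∃ T : Finset (F × F), (x : F) ∈ T.inf c ∧ T.inf c ≤ b := by
      rintro ⟨x, hx⟩
      have hcomp : IsCompact ((b : Set F)ᶜ) := b.isClopen.compl.isClosed.isCompact
      obtain ⟨t, ht⟩ := hcomp.elim_finite_subcover
        (fun y : ((b : Set F)ᶜ : Set F) => ((c (x, y) : Clopens F) : Set F)ᶜ)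
        (fun y => (c (x, y)).isClopen.compl.isOpen) (fun y hy => mem_iUnion.2 ⟨⟨y, hy⟩,
          (hc (x, y) (fun h => hy (by
            have h' : x = y := h
            rw [← h']; exact hx))).2⟩)
      refine ⟨t.image fun y : ((b : Set F)ᶜ : Set F) => (x, (y : F)), ?_, ?_⟩
      · have : ∀ T : Finset (F × F), (∀ p ∈ T, x ∈ c p) → x ∈ T.inf c := by
          intro T
          induction T using Finset.induction_on with
          | empty => intro _; exact mem_univ x
          | insert p T _ ih =>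
            intro h
            rw [Finset.inf_insert]
            exact ⟨h p (Finset.mem_insert_self _ _), ih fun q hq => h q
              (Finset.mem_insert_of_mem hq)⟩
        apply this
        intro p hp
        obtain ⟨y, -, rfl⟩ := Finset.mem_image.1 hp
        exact (hc (x, y) (fun h => y.2 (by
          have h' : x = y := h
          rw [← h']; exact hx))).1
      · intro z hz
        by_contra hzb
        obtain ⟨y, hy⟩ := mem_iUnion.1 (ht hzb)
        obtain ⟨hyt, hzy⟩ := mem_iUnion.1 hy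
        apply hzy
        exact (Finset.inf_le (f := c) (Finset.mem_image_of_mem _ hyt) :
          (t.image fun y : ((b : Set F)ᶜ : Set F) => (x, (y : F))).inf c ≤ c (x, y)) hz
    choose T hT1 hT2 using h1
    obtain ⟨t, ht⟩ := b.isClosed.isCompact.elim_finite_subcover
      (fun x : (b : Set F) => (((T x).inf c : Clopens F) : Set F)) (fun x => ((T x).inf c).isOpen)
      (fun x hx => mem_iUnion.2 ⟨⟨x, hx⟩, hT1 ⟨x, hx⟩⟩)
    refine ⟨t.image T, ?_⟩
    apply le_antisymm
    · refine Finset.sup_le fun S hS => ?_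
      obtain ⟨x, -, rfl⟩ := Finset.mem_image.1 hS
      exact hT2 x
    · intro z hz
      obtain ⟨x, hx⟩ := mem_iUnion.1 (ht hz)
      obtain ⟨hxt, hzx⟩ := mem_iUnion.1 hx
      exact (Finset.le_sup (f := fun S : Finset (F × F) => S.inf c)
        (Finset.mem_image_of_mem T hxt) : (T x).inf c ≤ _) hzx
  exact hsurj.countable

/-! ### The space -/

/-- The topology with the basis `R`. -/
@[reducible] private def z1_topology {O : Type} (R : Set (Set O)) (hc : ∀ x, ∃ K ∈ R, x ∈ K)
    (hi : ∀ K ∈ R, ∀ K' ∈ R, K ∩ K' ∈ R) : TopologicalSpace O where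
  IsOpen U := ∀ x ∈ U, ∃ K ∈ R, x ∈ K ∧ K ⊆ U
  isOpen_univ := fun x _ => by
    obtain ⟨K, hK, hx⟩ := hc x
    exact ⟨K, hK, hx, subset_univ _⟩
  isOpen_inter := by
    intro U V hU hV x hx
    obtain ⟨K, hK, hxK, hKU⟩ := hU x hx.1
    obtain ⟨L, hL, hxL, hLV⟩ := hV x hx.2
    exact ⟨K ∩ L, hi K hK L hL, ⟨hxK, hxL⟩, inter_subset_inter hKU hLV⟩
  isOpen_sUnion := by
    intro S hS x hx
    obtain ⟨U, hU, hxU⟩ := hx
    obtain ⟨K, hK, hxK, hKU⟩ := hS U hU x hxU
    exact ⟨K, hK, hxK, hKU.trans (subset_sUnion_of_mem hU)⟩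

/-- The properties of the space. -/
private structure Z1 {O : Type} [TopologicalSpace O] (R : Set (Set O)) (ρ : O → Ordinal.{0})
    (α : Ordinal.{0}) : Prop where
  gr : GR univ R ρ
  op : ∀ U : Set O, IsOpen U ↔ ∀ x ∈ U, ∃ K ∈ R, x ∈ K ∧ K ⊆ U
  ra : ∀ x, ρ x < α
  ct : ∀ K ∈ R, K.Countable
  lv : ∀ β, β < α → ¬ {x | ρ x = β}.Countable
  card : #O ≤ ℵ₁
  hm : ∀ E : Set O, IsClosed E → ¬ E.Countable → ∃ h : O → O, BijOn h univ E ∧
    ∀ K' ∈ R, ∃ K ∈ R, h '' K = K' ∩ E

section Space

variable {O : Type} [TopologicalSpace O] {R : Set (Set O)} {ρ : O → Ordinal.{0}}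
  {α : Ordinal.{0}}

private theorem Z1.isOpen (h : Z1 R ρ α) {K : Set O} (hK : K ∈ R) : IsOpen K :=
  (h.op K).2 fun _ hx => ⟨K, hK, hx, subset_rfl⟩

private theorem Z1.isClosed (h : Z1 R ρ α) {K : Set O} (hK : K ∈ R) : IsClosed K := by
  rw [← isOpen_compl_iff, h.op]
  intro x hx
  obtain ⟨L, hL, hxL⟩ := h.gr.cov x (mem_univ x)
  exact ⟨L \ K, h.gr.df L hL K hK, ⟨hxL, hx⟩, fun y hy => hy.2⟩

private theorem Z1.isCompact (h : Z1 R ρ α) {K : Set O} (hK : K ∈ R) : IsCompact K := by
  classical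
  rw [isCompact_iff_finite_subcover]
  intro ι U hU hKU
  obtain ⟨F, hF, hFf, hFK⟩ := h.gr.compact hK (U := {L | L ∈ R ∧ ∃ i, L ⊆ U i})
    (fun L hL => hL.1) (by
      intro x hx
      obtain ⟨i, hi⟩ := mem_iUnion.1 (hKU hx)
      obtain ⟨L, hL, hxL, hLU⟩ := (h.op (U i)).1 (hU i) x hi
      exact ⟨L, ⟨hL, i, hLU⟩, hxL⟩)
  rcases isEmpty_or_nonempty ι with hι | hι
  · refine ⟨∅, fun x hx => ?_⟩
    obtain ⟨i, -⟩ := mem_iUnion.1 (hKU hx)
    exact hι.elim i
  choose! g hg using (show ∀ L, L ∈ F → ∃ i, L ⊆ U i from fun L hL => (hF hL).2)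
  refine ⟨hFf.toFinset.image g, fun x hx => ?_⟩
  obtain ⟨L, hL, hxL⟩ := hFK hx
  exact mem_biUnion (Finset.mem_coe.2 (Finset.mem_image_of_mem g (hFf.mem_toFinset.2 hL)))
    (hg L hL hxL)

private theorem Z1.subset (h : Z1 R ρ α) {C : Set O} (hC : IsCompact C) : ∃ K ∈ R, C ⊆ K := by
  classical
  obtain ⟨t, ht⟩ := hC.elim_finite_subcover (fun K : R => (K : Set O)) (fun K => h.isOpen K.2)
    (fun x _ => by
      obtain ⟨K, hK, hx⟩ := h.gr.cov x (mem_univ x)
      exact mem_iUnion.2 ⟨⟨K, hK⟩, hx⟩)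
  refine ⟨⋃₀ ((fun K : R => (K : Set O)) '' t), h.gr.sUnion (t.finite_toSet.image _) ?_, ?_⟩
  · rintro _ ⟨K, -, rfl⟩
    exact K.2
  · intro x hx
    obtain ⟨K, hK⟩ := mem_iUnion.1 (ht hx)
    obtain ⟨hKt, hxK⟩ := mem_iUnion.1 hK
    exact ⟨K, ⟨K, hKt, rfl⟩, hxK⟩

private theorem Z1.t2 (h : Z1 R ρ α) : T2Space O := by
  refine ⟨fun x y hxy => ?_⟩
  obtain ⟨K, hK, hx, hy⟩ := h.gr.sep x (mem_univ x) y (mem_univ y) hxy
  exact ⟨K, Kᶜ, h.isOpen hK, (h.isClosed hK).isOpen_compl, hx, hy, disjoint_compl_right⟩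

private theorem Z1.wlc (h : Z1 R ρ α) : WeaklyLocallyCompactSpace O := by
  refine ⟨fun x => ?_⟩
  obtain ⟨K, hK, hx⟩ := h.gr.cov x (mem_univ x)
  exact ⟨K, h.isCompact hK, (h.isOpen hK).mem_nhds hx⟩

private theorem Z1.clopen (h : Z1 R ρ α) {K : Set O} (hK : K ∈ R) :
    IsClopen (OnePoint.some '' K : Set (OnePoint O)) :=
  ⟨OnePoint.isClosed_image_coe.2 ⟨h.isClosed hK, h.isCompact hK⟩,
    OnePoint.isOpen_image_coe.2 (h.isOpen hK)⟩

private theorem Z1.sep' (h : Z1 R ρ α) (x : O) (y : OnePoint O) (hxy : (x : OnePoint O) ≠ y) :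
    ∃ K ∈ R, (x : OnePoint O) ∈ (OnePoint.some '' K : Set (OnePoint O)) ∧
      y ∉ (OnePoint.some '' K : Set (OnePoint O)) := by
  rcases eq_or_ne y OnePoint.infty with rfl | hy
  · obtain ⟨K, hK, hx⟩ := h.gr.cov x (mem_univ x)
    exact ⟨K, hK, mem_image_of_mem _ hx, OnePoint.infty_notMem_image_coe⟩
  · obtain ⟨z, rfl⟩ := OnePoint.ne_infty_iff_exists.1 hy
    obtain ⟨K, hK, hx, hz⟩ := h.gr.sep x (mem_univ x) z (mem_univ z) (fun e => hxy (by rw [e]))
    refine ⟨K, hK, mem_image_of_mem _ hx, ?_⟩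
    rintro ⟨w, hw, e⟩
    rw [OnePoint.coe_eq_coe] at e
    exact hz (e ▸ hw)

private theorem Z1.ts (h : Z1 R ρ α) : TotallySeparatedSpace (OnePoint O) := by
  refine ⟨fun x _ y _ hxy => ?_⟩
  rcases eq_or_ne x OnePoint.infty with rfl | hx
  · obtain ⟨z, rfl⟩ := OnePoint.ne_infty_iff_exists.1 hxy.symm
    obtain ⟨K, hK, h1, h2⟩ := h.sep' z _ hxy.symm
    refine ⟨(OnePoint.some '' K : Set (OnePoint O))ᶜ, (OnePoint.some '' K : Set (OnePoint O)),
      (h.clopen hK).compl.isOpen, (h.clopen hK).isOpen, h2, h1, ?_, disjoint_compl_left⟩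
    rw [compl_union_self]
  · obtain ⟨z, rfl⟩ := OnePoint.ne_infty_iff_exists.1 hx
    obtain ⟨K, hK, h1, h2⟩ := h.sep' z _ hxy
    refine ⟨(OnePoint.some '' K : Set (OnePoint O)), (OnePoint.some '' K : Set (OnePoint O))ᶜ,
      (h.clopen hK).isOpen, (h.clopen hK).compl.isOpen, h1, h2, ?_, disjoint_compl_right⟩
    rw [union_compl_self]

private theorem Z1.not_countable_of_closed (h : Z1 R ρ α) {F : Set (OnePoint O)}
    (hF : IsClosed F) (hc : ¬ F.Countable) : OnePoint.infty ∈ F ∧
      ¬ ((↑) ⁻¹' F : Set O).Countable := by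
  have h2 : F ⊆ {OnePoint.infty} ∪ (OnePoint.some '' ((↑) ⁻¹' F : Set O) : Set (OnePoint O)) := by
    intro x hx
    rcases eq_or_ne x OnePoint.infty with rfl | hx'
    · exact Or.inl rfl
    · obtain ⟨z, rfl⟩ := OnePoint.ne_infty_iff_exists.1 hx'
      exact Or.inr ⟨z, hx, rfl⟩
  have h1 : ¬ ((↑) ⁻¹' F : Set O).Countable := by
    intro h1
    exact hc (((countable_singleton _).union (h1.image _)).mono h2)
  refine ⟨?_, h1⟩
  by_contra hinf
  have h3 := (OnePoint.isClosed_iff_of_notMem hinf).1 hF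
  obtain ⟨K, hK, hFK⟩ := h.subset h3.2
  exact h1 ((h.ct K hK).mono hFK)

private theorem Z1.homeo (h : Z1 R ρ α) {F : Set (OnePoint O)}
    (hF : IsClosed F) (hc : ¬ F.Countable) : Nonempty (OnePoint O ≃ₜ F) := by
  have := h.t2
  have := h.wlc
  obtain ⟨hinf, hE⟩ := h.not_countable_of_closed hF hc
  obtain ⟨g, hg, hg2⟩ := h.hm ((↑) ⁻¹' F) (hF.preimage OnePoint.continuous_coe) hE
  have hgi : Function.Injective g := by
    intro x y hxy
    exact hg.injOn (mem_univ x) (mem_univ y) hxy
  have hpre : ∀ K' ∈ R, ∃ K ∈ R, g ⁻¹' K' = K := by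
    intro K' hK'
    obtain ⟨K, hK, he⟩ := hg2 K' hK'
    refine ⟨K, hK, ?_⟩
    ext x
    constructor
    · intro hx
      have : g x ∈ g '' K := by
        rw [he]
        exact ⟨hx, hg.mapsTo (mem_univ x)⟩
      obtain ⟨y, hy, e⟩ := this
      rw [← hgi e]
      exact hy
    · intro hx
      have : g x ∈ K' ∩ ((↑) ⁻¹' F : Set O) := by
        rw [← he]
        exact mem_image_of_mem g hx
      exact this.1
  have hgc : Continuous g := by
    rw [continuous_def]
    intro U hU
    rw [h.op]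
    intro x hx
    obtain ⟨K', hK', hxK, hKU⟩ := (h.op U).1 hU (g x) hx
    obtain ⟨K, hK, he⟩ := hpre K' hK'
    refine ⟨K, hK, ?_, ?_⟩
    · rw [← he]
      exact hxK
    · rw [← he]
      exact preimage_mono hKU
  have hgt : Filter.Tendsto g (Filter.coclosedCompact O) (Filter.coclosedCompact O) := by
    rw [Filter.hasBasis_coclosedCompact.tendsto_right_iff]
    rintro C ⟨hC1, hC2⟩
    obtain ⟨K', hK', hCK⟩ := h.subset hC2
    obtain ⟨K, hK, he⟩ := hpre K' hK'
    refine Filter.mem_of_superset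
      ((h.isCompact hK).compl_mem_coclosedCompact_of_isClosed (h.isClosed hK)) ?_
    intro x hx hxC
    apply hx
    rw [← he]
    exact hCK hxC
  have hφ := OnePoint.continuous_map hgc hgt
  have hφF : ∀ x, OnePoint.map g x ∈ F := by
    intro x
    rcases eq_or_ne x OnePoint.infty with rfl | hx'
    · exact hinf
    · obtain ⟨z, rfl⟩ := OnePoint.ne_infty_iff_exists.1 hx'
      exact hg.mapsTo (mem_univ z)
  let φ : OnePoint O → F := fun x => ⟨OnePoint.map g x, hφF x⟩
  have hφc : Continuous φ := hφ.subtype_mk hφF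
  have hφb : Function.Bijective φ := by
    constructor
    · intro x y hxy
      have e : OnePoint.map g x = OnePoint.map g y := congrArg Subtype.val hxy
      exact Option.map_injective hgi e
    · rintro ⟨y, hy⟩
      rcases eq_or_ne y OnePoint.infty with rfl | hy'
      · exact ⟨OnePoint.infty, rfl⟩
      · obtain ⟨z, rfl⟩ := OnePoint.ne_infty_iff_exists.1 hy'
        obtain ⟨w, -, hw⟩ := hg.surjOn (show z ∈ ((↑) ⁻¹' F : Set O) from hy)
        refine ⟨(w : OnePoint O), Subtype.ext ?_⟩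
        show OnePoint.map g w = z
        rw [OnePoint.map_some, hw]
  exact ⟨Continuous.homeoOfEquivCompactToT2 (f := Equiv.ofBijective φ hφb) hφc⟩

private theorem Z1.propertyP (h : Z1 R ρ α) : PropertyP (Clopens (OnePoint O)) := by
  have := h.t2
  have := h.wlc
  have := h.ts
  intro J hJ
  have h1 : ¬ (zeroSet J).Countable := by
    intro hc
    have : Countable (zeroSet J) := hc.to_subtype
    have : CompactSpace (zeroSet J) :=
      isCompact_iff_compactSpace.1 (isClosed_zeroSet J).isCompact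
    have h2 : Countable (Clopens (zeroSet J)) := z1_countable_clopens
    have h3 : Countable (QuotAlg (Clopens (OnePoint O)) J) := (quotIso J).injective.countable
    exact not_countable_iff.2 hJ h3
  obtain ⟨e⟩ := h.homeo (isClosed_zeroSet J) h1
  exact ⟨(quotIso J).trans (clopensCongr e.symm)⟩

private theorem Z1.isolated_eq (h : Z1 R ρ α) {β : Ordinal.{0}} (hβ : β < α) :
    isolated ({OnePoint.infty} ∪ OnePoint.some '' {x | β ≤ ρ x} : Set (OnePoint O)) =
      OnePoint.some '' {x | ρ x = β} := by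
  ext y
  constructor
  · rintro ⟨U, hU, hUy⟩
    have hy : y ∈ ({OnePoint.infty} ∪ OnePoint.some '' {x | β ≤ ρ x} : Set (OnePoint O)) ∩ U := by
      rw [hUy]
      exact mem_singleton y
    rcases hy with ⟨hy | ⟨x, hx, rfl⟩, hyU⟩
    · exfalso
      have hy' : y = OnePoint.infty := hy
      rw [hy'] at hyU hUy
      obtain ⟨-, hcomp⟩ := (OnePoint.isOpen_iff_of_mem hyU).1 hU
      obtain ⟨K, hK, hUK⟩ := h.subset hcomp
      have hns : ¬ {x | ρ x = β} ⊆ K := fun hs => h.lv β hβ ((h.ct K hK).mono hs)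
      obtain ⟨x, hx, hxK⟩ := not_subset.1 hns
      have hx' : ρ x = β := hx
      have hxU : (x : OnePoint O) ∈ U := by
        by_contra hn
        exact hxK (hUK hn)
      have h1 : (x : OnePoint O) ∈
          ({OnePoint.infty} ∪ OnePoint.some '' {x | β ≤ ρ x} : Set (OnePoint O)) ∩ U :=
        ⟨Or.inr ⟨x, hx'.ge, rfl⟩, hxU⟩
      rw [hUy] at h1
      exact OnePoint.coe_ne_infty x h1
    · refine ⟨x, ?_, rfl⟩
      by_contra hne
      have hlt : β < ρ x := lt_of_le_of_ne hx fun e => hne e.symm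
      have hUo : IsOpen ((↑) ⁻¹' U : Set O) := hU.preimage OnePoint.continuous_coe
      obtain ⟨K, hK, hxK, hKU⟩ := (h.op _).1 hUo x hyU
      obtain ⟨z, hz, hzx, hzβ⟩ := h.gr.ex K hK x hxK β hlt
      have h1 : (z : OnePoint O) ∈
          ({OnePoint.infty} ∪ OnePoint.some '' {x | β ≤ ρ x} : Set (OnePoint O)) ∩ U :=
        ⟨Or.inr ⟨z, hzβ, rfl⟩, hKU hz⟩
      rw [hUy] at h1
      exact hzx (OnePoint.coe_injective h1)
  · rintro ⟨x, hx, rfl⟩
    have hx' : ρ x = β := hx
    obtain ⟨L, hL, hxL⟩ := h.gr.cov x (mem_univ x)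
    obtain ⟨K, hK, -, hxK, hKx⟩ := h.gr.nbhd hL hxL
    refine ⟨OnePoint.some '' K, (h.clopen hK).isOpen, ?_⟩
    ext y
    constructor
    · rintro ⟨hy | ⟨z, hz, rfl⟩, ⟨w, hw, e⟩⟩
      · exfalso
        have hy' : y = OnePoint.infty := hy
        rw [hy'] at e
        exact OnePoint.coe_ne_infty w e
      · have e' : w = z := OnePoint.coe_injective e
        rw [e'] at hw
        have hzβ : β ≤ ρ z := hz
        by_contra hne
        have := hKx z hw (fun e => hne (by rw [e]; rfl))
        rw [hx'] at this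
        exact absurd hzβ (not_le.2 this)
    · rintro rfl
      exact ⟨Or.inr ⟨x, hx'.ge, rfl⟩, mem_image_of_mem _ hxK⟩

private theorem Z1.Z_eq (h : Z1 R ρ α) : ∀ β : Ordinal.{0}, β ≤ α →
    Z (OnePoint O) β = {OnePoint.infty} ∪ OnePoint.some '' {x | β ≤ ρ x} := by
  have := h.t2
  have := h.wlc
  have := h.ts
  intro β
  induction β using Ordinal.limitRecOn with
  | zero =>
    intro _
    rw [Z_zero]
    ext y
    refine ⟨fun _ => ?_, fun _ => mem_univ _⟩
    rcases eq_or_ne y OnePoint.infty with rfl | hy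
    · exact Or.inl rfl
    · obtain ⟨z, rfl⟩ := OnePoint.ne_infty_iff_exists.1 hy
      exact Or.inr ⟨z, (zero_le : 0 ≤ ρ z), rfl⟩
  | add_one β ih =>
    intro hβ
    have hlt : β < α := (Order.lt_add_one_iff.2 le_rfl).trans_le hβ
    rw [Z_succ, ih hlt.le, h.isolated_eq hlt]
    ext y
    constructor
    · rintro ⟨hy | ⟨x, hx, rfl⟩, hn⟩
      · exact Or.inl hy
      · refine Or.inr ⟨x, ?_, rfl⟩
        have hx' : β ≤ ρ x := hx
        show β + 1 ≤ ρ x
        rw [Order.add_one_le_iff]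
        exact lt_of_le_of_ne hx' fun e => hn ⟨x, e.symm, rfl⟩
    · rintro (hy | ⟨x, hx, rfl⟩)
      · refine ⟨Or.inl hy, ?_⟩
        rintro ⟨z, -, e⟩
        have hy' : y = OnePoint.infty := hy
        rw [hy'] at e
        exact OnePoint.coe_ne_infty z e
      · have hx' : β + 1 ≤ ρ x := hx
        rw [Order.add_one_le_iff] at hx'
        refine ⟨Or.inr ⟨x, hx'.le, rfl⟩, ?_⟩
        rintro ⟨z, hz, e⟩
        have e' : z = x := OnePoint.coe_injective e
        rw [e'] at hz
        have hz' : ρ x = β := hz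
        rw [hz'] at hx'
        exact lt_irrefl _ hx'
  | limit l hl ih =>
    intro hβ
    rw [Z_limit hl]
    ext y
    constructor
    · intro hy
      rcases eq_or_ne y OnePoint.infty with rfl | hy'
      · exact Or.inl rfl
      · obtain ⟨z, rfl⟩ := OnePoint.ne_infty_iff_exists.1 hy'
        refine Or.inr ⟨z, ?_, rfl⟩
        show l ≤ ρ z
        by_contra hlt
        rw [not_le] at hlt
        have h1 := mem_iInter.1 hy ⟨ρ z + 1, hl.succ_lt hlt⟩
        rw [ih (ρ z + 1) (hl.succ_lt hlt) ((hl.succ_lt hlt).le.trans hβ)] at h1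
        rcases h1 with h1 | ⟨w, hw, e⟩
        · exact OnePoint.coe_ne_infty z h1
        · have e' : w = z := OnePoint.coe_injective e
          rw [e'] at hw
          have hw' : ρ z + 1 ≤ ρ z := hw
          rw [Order.add_one_le_iff] at hw'
          exact lt_irrefl _ hw'
    · intro hy
      rw [mem_iInter]
      intro γ
      rw [ih γ.1 γ.2 ((le_of_lt γ.2).trans hβ)]
      rcases hy with hy | ⟨x, hx, rfl⟩
      · exact Or.inl hy
      · have hx' : l ≤ ρ x := hx
        exact Or.inr ⟨x, (le_of_lt γ.2).trans hx', rfl⟩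

private theorem Z1.mk_atoms (h : Z1 R ρ α) {β : Ordinal.{0}} (hβ : β < α) :
    #{a : QuotAlg (Clopens (OnePoint O)) (cbIdeal (Clopens (OnePoint O)) β) // IsAtom a} = ℵ₁ := by
  have := h.t2
  have := h.wlc
  have := h.ts
  rw [mk_atoms_congr (quotIso (cbIdeal (Clopens (OnePoint O)) β))]
  have hcl : IsClosed (zeroSet (cbIdeal (Clopens (OnePoint O)) β)) := isClosed_zeroSet _
  have : CompactSpace (zeroSet (cbIdeal (Clopens (OnePoint O)) β)) :=
    isCompact_iff_compactSpace.1 hcl.isCompact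
  apply le_antisymm
  · have h1 : ∀ a : {a : Clopens (zeroSet (cbIdeal (Clopens (OnePoint O)) β)) // IsAtom a},
        ∃ x, (a.1 : Set (zeroSet (cbIdeal (Clopens (OnePoint O)) β))) = {x} :=
      fun a => isAtom_iff.1 a.2
    choose f hf using h1
    have h2 : #{a : Clopens (zeroSet (cbIdeal (Clopens (OnePoint O)) β)) // IsAtom a} ≤
        #(OnePoint O) := by
      refine mk_le_of_injective (f := fun a => (f a).1) fun a b hab => ?_
      apply Subtype.ext
      apply Clopens.ext
      rw [hf a, hf b, Subtype.ext hab]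
    refine h2.trans ?_
    have h3 : #(OnePoint O) = #O + 1 := mk_option
    rw [h3]
    refine (add_le_add_left h.card 1).trans ?_
    rw [add_one_eq aleph0_lt_aleph_one.le]
  · rw [← succ_aleph0, Order.succ_le_iff]
    by_contra hcon
    rw [not_lt, mk_le_aleph0_iff] at hcon
    apply h.lv β hβ
    have hZ : zeroSet (cbIdeal (Clopens (OnePoint O)) β) =
        {OnePoint.infty} ∪ OnePoint.some '' {x | β ≤ ρ x} := h.Z_eq β hβ.le
    have hmem : ∀ x : {x | ρ x = β},
        ((x : O) : OnePoint O) ∈ zeroSet (cbIdeal (Clopens (OnePoint O)) β) := by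
      intro x
      rw [hZ]
      have hx : ρ x = β := x.2
      exact Or.inr ⟨x, hx.ge, rfl⟩
    have hcl' : ∀ x : {x | ρ x = β}, IsClopen
        ({⟨((x : O) : OnePoint O), hmem x⟩} :
          Set (zeroSet (cbIdeal (Clopens (OnePoint O)) β))) := by
      intro x
      refine ⟨isClosed_singleton, ?_⟩
      have hiso : ((x : O) : OnePoint O) ∈
          isolated ({OnePoint.infty} ∪ OnePoint.some '' {x | β ≤ ρ x} : Set (OnePoint O)) := by
        rw [h.isolated_eq hβ]
        exact ⟨x, x.2, rfl⟩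
      obtain ⟨U, hU, hUx⟩ := hiso
      rw [← hZ] at hUx
      have : ({⟨((x : O) : OnePoint O), hmem x⟩} :
          Set (zeroSet (cbIdeal (Clopens (OnePoint O)) β))) = Subtype.val ⁻¹' U := by
        ext y
        constructor
        · rintro rfl
          have : ((x : O) : OnePoint O) ∈ zeroSet (cbIdeal (Clopens (OnePoint O)) β) ∩ U := by
            rw [hUx]
            rfl
          exact this.2
        · intro hy
          have h1 : y.1 ∈ zeroSet (cbIdeal (Clopens (OnePoint O)) β) ∩ U := ⟨y.2, hy⟩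
          rw [hUx] at h1
          exact Subtype.ext h1
      rw [this]
      exact hU.preimage continuous_subtype_val
    let g : {x | ρ x = β} →
        {a : Clopens (zeroSet (cbIdeal (Clopens (OnePoint O)) β)) // IsAtom a} :=
      fun x => ⟨⟨_, hcl' x⟩, isAtom_singleton (hcl' x)⟩
    have hg : Function.Injective g := by
      intro x y hxy
      have h1 : ({⟨((x : O) : OnePoint O), hmem x⟩} :
          Set (zeroSet (cbIdeal (Clopens (OnePoint O)) β))) =
          {⟨((y : O) : OnePoint O), hmem y⟩} :=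
        congrArg (fun a : {a : Clopens (zeroSet (cbIdeal (Clopens (OnePoint O)) β)) // IsAtom a} =>
          (a.1 : Set (zeroSet (cbIdeal (Clopens (OnePoint O)) β)))) hxy
      have h2 := singleton_eq_singleton_iff.1 h1
      have h3 : ((x : O) : OnePoint O) = ((y : O) : OnePoint O) := congrArg Subtype.val h2
      exact Subtype.ext (OnePoint.coe_injective h3)
    exact countable_coe_iff.1 hg.countable

private theorem Z1.hasCardinalSequence (h : Z1 R ρ α) :
    HasCardinalSequence (Clopens (OnePoint O)) ℵ₁ α := by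
  have := h.t2
  have := h.wlc
  have := h.ts
  have hZ : zeroSet (cbIdeal (Clopens (OnePoint O)) α) = {OnePoint.infty} := by
    have h1 : Z (OnePoint O) α = _ := h.Z_eq α le_rfl
    have h2 : {x | α ≤ ρ x} = (∅ : Set O) := by
      ext x
      exact ⟨fun hx => absurd (h.ra x) (not_lt.2 hx), fun hx => absurd hx (by simp)⟩
    rw [h2, image_empty, union_empty] at h1
    exact h1
  have hcs : CompactSpace (zeroSet (cbIdeal (Clopens (OnePoint O)) α)) :=
    isCompact_iff_compactSpace.1 (isClosed_zeroSet _).isCompact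
  have hsub : Subsingleton (zeroSet (cbIdeal (Clopens (OnePoint O)) α)) := by
    rw [hZ]
    infer_instance
  have hfin : Finite (Clopens (zeroSet (cbIdeal (Clopens (OnePoint O)) α))) :=
    Finite.of_injective (fun b => (b : Set (zeroSet (cbIdeal (Clopens (OnePoint O)) α))))
      SetLike.coe_injective
  refine ⟨⟨α + 1, ?_⟩, ⟨?_, ?_⟩, ?_, ?_⟩
  · rw [cbIdeal_succ, Ideal.eq_top_iff_one]
    have h1 : (1 : AsBoolRing (Clopens (OnePoint O))) = toBoolRing ⊤ := rfl
    rw [h1, mem_succIdeal_iff, hZ]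
    exact (finite_singleton _).subset inter_subset_right
  · exact Finite.of_equiv _ (quotIso (cbIdeal (Clopens (OnePoint O)) α)).symm.toEquiv
  · intro β hβ
    by_contra hlt
    rw [not_le] at hlt
    have h1 : Finite (QuotAlg (Clopens (OnePoint O)) (cbIdeal (Clopens (OnePoint O)) β)) := hβ
    have h3 : #{a : QuotAlg (Clopens (OnePoint O)) (cbIdeal (Clopens (OnePoint O)) β) //
      IsAtom a} < ℵ₀ := lt_aleph0_of_finite _
    rw [h.mk_atoms hlt] at h3
    exact absurd h3 (not_lt.2 aleph0_lt_aleph_one.le)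
  · intro β hβ
    exact h.mk_atoms hβ
  · rw [mk_atoms_congr (quotIso (cbIdeal (Clopens (OnePoint O)) α)), Cardinal.eq_one_iff_unique]
    have ht : (OnePoint.infty : OnePoint O) ∈ zeroSet (cbIdeal (Clopens (OnePoint O)) α) := by
      rw [hZ]
      rfl
    constructor
    · refine ⟨fun a b => ?_⟩
      obtain ⟨x, hx⟩ := isAtom_iff.1 a.2
      obtain ⟨y, hy⟩ := isAtom_iff.1 b.2
      apply Subtype.ext
      apply Clopens.ext
      rw [hx, hy, Subsingleton.elim x y]
    · have hcl : IsClopen ({⟨OnePoint.infty, ht⟩} :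
          Set (zeroSet (cbIdeal (Clopens (OnePoint O)) α))) := by
        have : ({⟨OnePoint.infty, ht⟩} : Set (zeroSet (cbIdeal (Clopens (OnePoint O)) α))) =
            Set.univ := by
          ext z
          exact ⟨fun _ => trivial, fun _ => Subsingleton.elim _ _⟩
        rw [this]
        exact isClopen_univ
      exact ⟨⟨⟨_, hcl⟩, isAtom_singleton hcl⟩⟩

end Space

theorem zfc_bridge {O : Type} {lt : O → O → Prop} {a : O} {α : Ordinal.{0}} (hα : Ind α)
    (ho : OrdT lt a α) (hS : Sent lt a univ univ univ) :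
    ∃ (B : Type) (_ : BooleanAlgebra B), PropertyP B ∧ HasCardinalSequence B ℵ₁ α := by
  obtain ⟨R, -, r, -, hR, hra, hct, hlv, hhm⟩ := hS.alg
  obtain ⟨f, hf, hfo⟩ := ho
  have hlt : ∀ x y, lt (r x) (r y) ↔ f (r x) < f (r y) := fun x y => hfo _ _ (hra x) (hra y)
  have hgr : GR univ R (fun x => f (r x)) := by
    refine ⟨fun K _ => subset_univ K, hR.emp, hR.un, hR.df, fun x _ => hR.cov x,
      fun x _ y _ => hR.sep x y, ?_, ?_⟩
    · intro K hK hne
      obtain ⟨x, hx, h1, h2⟩ := hR.top K hK hne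
      refine ⟨x, hx, fun y hy => ?_, h2.subset ?_⟩
      · have := h1 y hy
        rw [hlt] at this
        exact not_lt.1 this
      · rintro y ⟨hy, he⟩
        exact ⟨hy, hf.injOn (hra y) (hra x) he⟩
    · intro K hK x hx β hβ
      have hβα : β < α := hβ.trans (hf.mapsTo (hra x))
      obtain ⟨b, hb, rfl⟩ := hf.surjOn hβα
      obtain ⟨y, hy, hyx, hyb⟩ := hR.ex K hK x hx b ((hfo _ _ hb (hra x)).2 hβ)
      refine ⟨y, hy, hyx, ?_⟩
      rw [hfo _ _ (hra y) hb] at hyb
      exact not_lt.1 hyb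
  let T : TopologicalSpace O := z1_topology R hR.cov fun K hK K' hK' => hgr.inter hK hK'
  have hZ : Z1 R (fun x => f (r x)) α := by
    refine ⟨hgr, fun U => Iff.rfl, fun x => hf.mapsTo (hra x),
      fun K hK => (ctbIn_univ hS K).1 (hct K hK), ?_, ?_, ?_⟩
    · intro β hβ hc
      obtain ⟨b, hb, rfl⟩ := hf.surjOn hβ
      apply hlv b hb
      rw [ctbIn_univ hS]
      refine hc.mono fun x hx => ?_
      have hx' : r x = b := hx
      show f (r x) = f b
      rw [hx']
    · exact z1_mk_le hS.wo fun x => (ctbIn_univ hS _).1 (hS.seg x)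
    · intro E hE hEc
      obtain ⟨h, -, hb, -, h2⟩ := hhm E (mem_univ E) (fun x hx => by
        obtain ⟨K, hK, hxK, hKE⟩ := (isOpen_compl_iff.2 hE : IsOpen Eᶜ) x hx
        exact ⟨K, hK, hxK, disjoint_iff_inter_eq_empty.1 (subset_compl_iff_disjoint_right.1 hKE)⟩)
        (by rw [ctbIn_univ hS]; exact hEc)
      exact ⟨h, hb, h2⟩
  exact ⟨Clopens (OnePoint O), inferInstance, hZ.propertyP, hZ.hasCardinalSequence⟩

end Pool.Agent.Helper33.QB
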